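import Pool.Agent.W732.Ud.Stm

/-!
# The universal datum
-/

set_option autoImplicit false

open Metric Set Filter Topology Complex

namespace Pool.Agent.W64.Ud

open Pool.Agent.W732.Ud

/-- compact exhaustion of an open set -/
theorem exists_exh {E : Type} [NormedAddCommGroup E] [NormedSpace ℂ E] [FiniteDimensional ℂ E]
    {H : Set E} (hH : IsOpen H) : ∃ K : ℕ → Set E, (∀ k, IsCompact (K k)) ∧ (∀ k, K k ⊆ H) ∧
      ∀ Q ⊆ H, IsCompact Q → ∃ k₀, ∀ k ≥ k₀, Q ⊆ K k := by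
  have : ProperSpace E := FiniteDimensional.proper ℂ E
  have : LocallyCompactSpace H := hH.locallyCompactSpace
  have : SigmaCompactSpace H := inferInstance
  let K := CompactExhaustion.choice H
  refine ⟨fun k => Subtype.val '' (K k), fun k => (K.isCompact k).image continuous_subtype_val,
    ?_, ?_⟩
  · rintro k _ ⟨x, _, rfl⟩
    exact x.2
  · intro Q hQ hQc
    have h1 : IsCompact ((Subtype.val : H → E) ⁻¹' Q) := by
      rw [Topology.IsInducing.subtypeVal.isCompact_preimage_iff]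
      · exact hQc
      · rw [Subtype.range_val]
        exact hQ
    obtain ⟨k₀, hk₀⟩ := K.exists_superset_of_isCompact h1
    exact ⟨k₀, fun k hk x hx => ⟨⟨x, hQ hx⟩, K.subset hk (hk₀ hx), rfl⟩⟩

/-- composition with maps which tend to the identity -/
theorem unif_comp {E : Type} [NormedAddCommGroup E] [NormedSpace ℂ E] [FiniteDimensional ℂ E]
    {H K : Set E} (hH : IsOpen H) (hK : IsCompact K) (hKH : K ⊆ H) {g : E → ℂ}
    (hg : ContinuousOn g H) {φ : ℕ → E → E} (hφ : TendstoUniformlyOn φ id atTop K) {ε : ℝ}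
    (hε : 0 < ε) : ∀ᶠ n in atTop, ∀ x ∈ K, ‖g (φ n x) - g x‖ ≤ ε := by
  have : ProperSpace E := FiniteDimensional.proper ℂ E
  obtain ⟨r, hr, hrs⟩ := hK.exists_cthickening_subset_open hH hKH
  have hc : IsCompact (cthickening r K) := hK.cthickening
  have huc : UniformContinuousOn g (cthickening r K) :=
    hc.uniformContinuousOn_of_continuous (hg.mono hrs)
  rw [Metric.uniformContinuousOn_iff] at huc
  obtain ⟨η, hη, huc⟩ := huc ε hε
  have h0 := Metric.tendstoUniformlyOn_iff.1 hφ (min η r) (lt_min hη hr)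
  filter_upwards [h0] with n hn x hx
  have h1 : dist x (φ n x) < min η r := hn x hx
  have h2 : φ n x ∈ cthickening r K :=
    mem_cthickening_of_dist_le (φ n x) x r K hx
      (by rw [dist_comm]; exact (h1.trans_le (min_le_right _ _)).le)
  have h3 : x ∈ cthickening r K := self_subset_cthickening K hx
  have h4 := huc _ h2 _ h3 (by rw [dist_comm]; exact h1.trans_le (min_le_left _ _))
  rw [dist_eq_norm] at h4
  exact h4.le

theorem main : S_disc → S_sp → S_sep → S_sum → S_ud := by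
  intro hdisc hsp hsep hsum E E' _ _ _ _ _ _ D H U ψ G P hA N δ hδ
  by_cases hex : ∃ h : Fin N → E' → ℂ, Datum N δ H h
  swap
  · refine ⟨fun _ => 1, fun _ _ => 0, differentiableOn_const _, fun _ => differentiableOn_const _,
      fun z _ => by simp, fun i z _ => by simp, fun z _ => ?_, fun h hh => absurd ⟨h, hh⟩ hex⟩
    have h1 : min (1 / 2) (δ / 8) ≤ 1 / 2 := min_le_left _ _
    simp only [norm_one, norm_zero, Finset.sum_const_zero]
    linarith
  obtain ⟨hh, hhD, hhs⟩ := hsep E' H hA.exh.oH N δ hex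
  obtain ⟨K, hKc, hKH, hKe⟩ := exists_exh hA.exh.oH
  obtain ⟨x₀, hx₀⟩ := hA.nH
  -- the points
  have hev0 : ∀ᶠ n in atTop, ‖P (ψ n x₀)‖ < 1 := by
    filter_upwards [hA.exh.exh {x₀} (singleton_subset_iff.2 hx₀) isCompact_singleton] with n hn
    exact hA.mP _ (hA.mψ n (hn (mem_singleton x₀)))
  let μ : ℕ → ℂ := fun n => if ‖P (ψ n x₀)‖ < 1 then P (ψ n x₀) else 0
  have hμ1 : ∀ n, ‖μ n‖ < 1 := by
    intro n
    simp only [μ]
    split_ifs with h
    · exact h
    · simp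
  have hμ2 : Tendsto μ atTop (𝓝 1) := by
    apply (hA.limP x₀ hx₀).congr'
    filter_upwards [hev0] with n hn
    simp only [μ, if_pos hn]
  -- the radii
  have hρ : ∀ k : ℕ, ∃ ρ : ℝ, 0 < ρ ∧ ρ < 1 ∧
      ∀ᶠ n in atTop, ∀ x ∈ K k, ph (P (ψ n x₀)) (P (ψ n x)) ≤ ρ := fun k =>
    hsp E E' D H U ψ G P hA x₀ hx₀ (K k) (hKH k) (hKc k)
  choose ρ hρ0 hρ1 hρ2 using hρ
  -- the indices
  have hL : ∀ k : ℕ, ∃ L : ℕ, ∀ n, L ≤ n → ‖P (ψ n x₀)‖ < 1 ∧ K k ⊆ U n ∧
      (∀ x ∈ K k, ph (P (ψ n x₀)) (P (ψ n x)) ≤ ρ k) ∧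
      ∀ i, ∀ x ∈ K k, ‖hh k i (G n (ψ n x)) - hh k i x‖ ≤ 1 / ((k : ℝ) + 1) := by
    intro k
    have h1 : ∀ᶠ n in atTop, ∀ i, ∀ x ∈ K k,
        ‖hh k i (G n (ψ n x)) - hh k i x‖ ≤ 1 / ((k : ℝ) + 1) := by
      rw [Filter.eventually_all]
      intro i
      exact unif_comp hA.exh.oH (hKc k) (hKH k) ((hhD k).hol i).continuousOn
        (hA.lim (K k) (hKH k) (hKc k)) (by positivity)
    have h2 := hev0.and ((hA.exh.exh (K k) (hKH k) (hKc k)).and ((hρ2 k).and h1))
    exact eventually_atTop.1 h2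
  choose L hL using hL
  have hκ : 0 < δ / (4 * ((N : ℝ) + 1)) := by positivity
  obtain ⟨n, b, p, W, hn, hLn, hbd, hb1, hpd, hps, hp4, hpu, hW1, hW2, hW3⟩ :=
    hdisc μ hμ1 hμ2 ρ hρ0 hρ1 L (δ / (4 * ((N : ℝ) + 1))) hκ
  have hPb : ∀ z ∈ D, P z ∈ ball (0 : ℂ) 1 := fun z hz => mem_ball_zero_iff.2 (hA.mP z hz)
  have hS := fun i : Fin N => hsum E D P p W (δ / (4 * ((N : ℝ) + 1)))
    (fun k z => hh k i (G (n k) z)) hA.oD hA.dP hA.mP hpd hps hp4 hpu hW3
    (fun k => ((hhD k).hol i).comp (hA.dG (n k)) (hA.mG (n k)))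
    (fun k z hz => (hhD k).bd i _ (hA.mG (n k) hz))
  refine ⟨fun z => b (P z), fun i z => (1 / 4) * ∑' k, p k (P z) * hh k i (G (n k) z),
    hbd.comp hA.dP hPb, fun i => (hS i).1.const_mul _, fun z hz => hb1 _ (hPb z hz), ?_, ?_, ?_⟩
  · intro i z hz
    have h1 := (hS i).2.1 z hz
    rw [norm_mul]
    have h2 : ‖(1 / 4 : ℂ)‖ = 1 / 4 := by norm_num
    rw [h2]
    linarith
  · intro z hz
    by_cases hW : ∀ k, P z ∉ W k
    · have h1 := hW2 _ (hPb z hz) hW
      have h2 : 0 ≤ ∑ i : Fin N, ‖(1 / 4 : ℂ) * ∑' k, p k (P z) * hh k i (G (n k) z)‖ :=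
        Finset.sum_nonneg fun i _ => norm_nonneg _
      have h3 : min (1 / 2) (δ / 8) ≤ 1 / 2 := min_le_left _ _
      linarith
    · push Not at hW
      obtain ⟨k, hk⟩ := hW
      have h1 : ∀ i : Fin N, (1 / 4) * (‖hh k i (G (n k) z)‖ - 2 * (δ / (4 * ((N : ℝ) + 1)))) ≤
          ‖(1 / 4 : ℂ) * ∑' k, p k (P z) * hh k i (G (n k) z)‖ := by
        intro i
        have h2 := (hS i).2.2 k z hz hk
        have h3 : 2 * (δ / (4 * ((N : ℝ) + 1))) / ((k : ℝ) + 1) ≤
            2 * (δ / (4 * ((N : ℝ) + 1))) := by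
          apply div_le_self (by positivity)
          have : (0 : ℝ) ≤ k := Nat.cast_nonneg k
          linarith
        have h4 : ‖hh k i (G (n k) z)‖ ≤ ‖∑' l, p l (P z) * hh l i (G (n l) z)‖ +
            ‖∑' l, p l (P z) * hh l i (G (n l) z) - hh k i (G (n k) z)‖ := by
          have := norm_sub_le (∑' l, p l (P z) * hh l i (G (n l) z))
            (∑' l, p l (P z) * hh l i (G (n l) z) - hh k i (G (n k) z))
          rwa [sub_sub_cancel] at this
        rw [norm_mul]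
        have h5 : ‖(1 / 4 : ℂ)‖ = 1 / 4 := by norm_num
        rw [h5]
        linarith
      have h2 : δ ≤ ∑ i, ‖hh k i (G (n k) z)‖ := (hhD k).low _ (hA.mG (n k) hz)
      have h3 : δ / 8 ≤ ∑ i : Fin N, ‖(1 / 4 : ℂ) * ∑' k, p k (P z) * hh k i (G (n k) z)‖ := by
        calc δ / 8 ≤ (1 / 4) * (δ - N * (2 * (δ / (4 * ((N : ℝ) + 1))))) := by
              have h6 : (N : ℝ) * (2 * (δ / (4 * ((N : ℝ) + 1)))) ≤ δ / 2 := by
                have h7 : (N : ℝ) * (2 * (δ / (4 * ((N : ℝ) + 1)))) =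
                    δ / 2 * ((N : ℝ) / ((N : ℝ) + 1)) := by
                  field_simp
                  ring
                rw [h7]
                have h8 : (N : ℝ) / ((N : ℝ) + 1) ≤ 1 := by
                  rw [div_le_one (by positivity)]
                  linarith
                nlinarith
              linarith
          _ ≤ (1 / 4) * (∑ i, ‖hh k i (G (n k) z)‖ - N * (2 * (δ / (4 * ((N : ℝ) + 1))))) := by
              linarith
          _ = ∑ i : Fin N, (1 / 4) * (‖hh k i (G (n k) z)‖ - 2 * (δ / (4 * ((N : ℝ) + 1)))) := by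
              rw [← Finset.mul_sum, Finset.sum_sub_distrib, Finset.sum_const, Finset.card_univ,
                Fintype.card_fin, nsmul_eq_mul]
          _ ≤ _ := Finset.sum_le_sum fun i _ => h1 i
      have h4 : min (1 / 2) (δ / 8) ≤ δ / 8 := min_le_right _ _
      have h5 := norm_nonneg (b (P z))
      linarith
  · intro h hhd
    obtain ⟨s, hs, hsu⟩ := hhs h hhd
    refine ⟨fun j => n (s j), hn.comp hs, ?_, ?_⟩
    · intro Q hQ hQc
      obtain ⟨k₀, hk₀⟩ := hKe Q hQ hQc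
      rw [Metric.tendstoUniformlyOn_iff]
      intro ε hε
      have h1 : ∀ᶠ j : ℕ in atTop, 1 / ((j : ℝ) + 1) < ε :=
        (tendsto_order.1 tendsto_one_div_add_atTop_nhds_zero_nat).2 ε hε
      filter_upwards [h1, eventually_ge_atTop k₀] with j hj1 hj2 x hx
      have hsj : j ≤ s j := hs.id_le j
      have hxK : x ∈ K (s j) := hk₀ (s j) (hj2.trans hsj) hx
      obtain ⟨a1, a2, a3, -⟩ := hL (s j) (n (s j)) (hLn (s j))
      have hz : ψ (n (s j)) x ∈ D := hA.mψ _ (a2 hxK)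
      have hμe : μ (n (s j)) = P (ψ (n (s j)) x₀) := by simp only [μ, if_pos a1]
      have h2 := (hW1 (s j) _ (hPb _ hz) (by rw [hμe]; exact a3 x hxK)).2
      rw [Pi.zero_apply, dist_zero_left]
      have h3 : 1 / (((s j : ℕ) : ℝ) + 1) ≤ 1 / ((j : ℝ) + 1) := by
        apply one_div_le_one_div_of_le (by positivity)
        have : (j : ℝ) ≤ (s j : ℕ) := by exact_mod_cast hsj
        linarith
      exact (h2.trans h3).trans_lt hj1
    · intro i Q hQ hQc
      obtain ⟨k₀, hk₀⟩ := hKe Q hQ hQc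
      rw [Metric.tendstoUniformlyOn_iff]
      intro ε hε
      have h1 : ∀ᶠ j : ℕ in atTop, (2 * (δ / (4 * ((N : ℝ) + 1))) + 1) * (1 / ((j : ℝ) + 1)) <
          ε / 2 := by
        have h2 : Tendsto (fun j : ℕ => (2 * (δ / (4 * ((N : ℝ) + 1))) + 1) * (1 / ((j : ℝ) + 1)))
            atTop (𝓝 ((2 * (δ / (4 * ((N : ℝ) + 1))) + 1) * 0)) :=
          tendsto_one_div_add_atTop_nhds_zero_nat.const_mul _
        rw [mul_zero] at h2
        exact (tendsto_order.1 h2).2 _ (by positivity)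
      have h3 := Metric.tendstoUniformlyOn_iff.1 (hsu i Q hQ hQc) (ε / 2) (by positivity)
      filter_upwards [h1, h3, eventually_ge_atTop k₀] with j hj1 hj3 hj2 x hx
      have hsj : j ≤ s j := hs.id_le j
      have hxK : x ∈ K (s j) := hk₀ (s j) (hj2.trans hsj) hx
      obtain ⟨a1, a2, a3, a4⟩ := hL (s j) (n (s j)) (hLn (s j))
      have hz : ψ (n (s j)) x ∈ D := hA.mψ _ (a2 hxK)
      have hμe : μ (n (s j)) = P (ψ (n (s j)) x₀) := by simp only [μ, if_pos a1]
      have h2 := (hW1 (s j) _ (hPb _ hz) (by rw [hμe]; exact a3 x hxK)).1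
      have h4 := (hS i).2.2 (s j) _ hz h2
      have h5 := a4 i x hxK
      have h6 := hj3 x hx
      rw [dist_comm, dist_eq_norm] at h6
      rw [dist_comm, dist_eq_norm]
      have h7 : (4 : ℂ) * (1 / 4 * ∑' k, p k (P (ψ (n (s j)) x)) *
          hh k i (G (n k) (ψ (n (s j)) x))) - h i x =
          (∑' k, p k (P (ψ (n (s j)) x)) * hh k i (G (n k) (ψ (n (s j)) x)) -
            hh (s j) i (G (n (s j)) (ψ (n (s j)) x))) +
          (hh (s j) i (G (n (s j)) (ψ (n (s j)) x)) - hh (s j) i x) +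
          (hh (s j) i x - h i x) := by ring
      rw [h7]
      have h8 : 1 / (((s j : ℕ) : ℝ) + 1) ≤ 1 / ((j : ℝ) + 1) := by
        apply one_div_le_one_div_of_le (by positivity)
        have : (j : ℝ) ≤ (s j : ℕ) := by exact_mod_cast hsj
        linarith
      have h9 : 2 * (δ / (4 * ((N : ℝ) + 1))) / (((s j : ℕ) : ℝ) + 1) ≤
          2 * (δ / (4 * ((N : ℝ) + 1))) * (1 / ((j : ℝ) + 1)) := by
        rw [div_eq_mul_one_div]
        exact mul_le_mul_of_nonneg_left h8 (by positivity)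
      calc _ ≤ _ := norm_add₃_le
        _ < ε := by linarith

end Pool.Agent.W64.Ud
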